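import Pool.Agent.helper11.VQ.Spec3c

/-!
# MP_07c750 (QUE), project VQ, blocks 3c and 3d, row GIV (numbers)
-/

set_option autoImplicit false

open scoped MatrixGroups ContDiff Topology UpperHalfPlane ComplexConjugate ENNReal
open UpperHalfPlane MeasureTheory Filter Set

namespace Pool.Agent.VQ

open Pool.Agent.RS

noncomputable section

theorem GIV_ev (a : ℝ) (k0 : ℕ) : ∃ K1 : ℕ, ∀ K : ℕ, K1 ≤ K →
    k0 ≤ K ∧ 7000 ≤ K ∧ 4 * a + 4 ≤ Real.log K ∧ (Real.log K) ^ 2 ≤ K / 2000 := by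
  have h1 : ∀ᶠ K : ℕ in atTop, k0 ≤ K := eventually_ge_atTop k0
  have h2 : ∀ᶠ K : ℕ in atTop, 7000 ≤ K := eventually_ge_atTop 7000
  have h3 : ∀ᶠ K : ℕ in atTop, 4 * a + 4 ≤ Real.log K :=
    (Real.tendsto_log_atTop.comp (tendsto_natCast_atTop_atTop (R := ℝ))).eventually_ge_atTop _
  have h4 : ∀ᶠ x : ℝ in atTop, ‖Real.log x ^ 2‖ ≤ 1 / 2000 * ‖x‖ :=
    (Real.isLittleO_pow_log_id_atTop (n := 2)).def (by norm_num)
  have h5 : ∀ᶠ K : ℕ in atTop, ‖Real.log (K : ℝ) ^ 2‖ ≤ 1 / 2000 * ‖(K : ℝ)‖ :=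
    (tendsto_natCast_atTop_atTop (R := ℝ)).eventually h4
  obtain ⟨K1, hK1⟩ := eventually_atTop.mp (h1.and (h2.and (h3.and h5)))
  refine ⟨K1, fun K hK => ?_⟩
  obtain ⟨g1, g2, g3, g4⟩ := hK1 K hK
  refine ⟨g1, g2, g3, ?_⟩
  have e1 : ‖(K : ℝ)‖ = K := by
    rw [Real.norm_eq_abs, abs_of_nonneg (Nat.cast_nonneg K)]
  have e2 : ‖Real.log (K : ℝ) ^ 2‖ = Real.log (K : ℝ) ^ 2 := by
    rw [Real.norm_eq_abs, abs_of_nonneg (sq_nonneg _)]
  rw [e1, e2] at g4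
  linarith

theorem GIV_128 : (128 : ℝ) ≤ Real.exp 5 := by
  have h1 := Real.exp_one_gt_d9
  have h2 : Real.exp 5 = Real.exp 1 ^ 5 := by
    rw [← Real.exp_nat_mul]
    norm_num
  rw [h2]
  have h3 : (27 / 10 : ℝ) ≤ Real.exp 1 := by linarith
  calc (128 : ℝ) ≤ (27 / 10) ^ 5 := by norm_num
    _ ≤ Real.exp 1 ^ 5 := pow_le_pow_left₀ (by norm_num) h3 5

theorem GIV_proof : GIV_stmt := by
  intro a k0 ha
  obtain ⟨K1, hK1⟩ := GIV_ev a k0
  refine ⟨max 3 (2 ^ K1), le_max_left _ _, fun R hR => ?_⟩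
  have hR3 : (3 : ℝ) ≤ R := le_trans (le_max_left _ _) hR
  have hR2 : (2 : ℝ) ^ K1 ≤ R := le_trans (le_max_right _ _) hR
  have hR0 : 0 < R := by linarith
  set K : ℕ := Nat.log 2 ⌊R⌋₊ with hKdef
  have hfl : ⌊R⌋₊ ≠ 0 := by
    have : 3 ≤ ⌊R⌋₊ := Nat.le_floor (by exact_mod_cast hR3)
    omega
  have hb1 : (2 : ℝ) ^ K ≤ R := by
    have h1 : 2 ^ K ≤ ⌊R⌋₊ := Nat.pow_log_le_self 2 hfl
    have h2 : ((2 ^ K : ℕ) : ℝ) ≤ (⌊R⌋₊ : ℝ) := by exact_mod_cast h1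
    have h3 : (⌊R⌋₊ : ℝ) ≤ R := Nat.floor_le hR0.le
    push_cast at h2
    linarith
  have hb2 : R ≤ (2 : ℝ) ^ (K + 1) := by
    have h1 : ⌊R⌋₊ < 2 ^ (K + 1) := Nat.lt_pow_succ_log_self (by norm_num) _
    have h2 : ((⌊R⌋₊ + 1 : ℕ) : ℝ) ≤ ((2 ^ (K + 1) : ℕ) : ℝ) := by exact_mod_cast h1
    have h3 := Nat.lt_floor_add_one R
    push_cast at h2
    linarith
  have hKK : K1 ≤ K := by
    have h1 : (2 : ℝ) ^ K1 ≤ (2 : ℝ) ^ (K + 1) := le_trans hR2 hb2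
    have h2 : K1 ≤ K + 1 := (pow_le_pow_iff_right₀ (by norm_num : (1 : ℝ) < 2)).mp h1
    rcases Nat.lt_or_ge K K1 with h3 | h3
    · have h4 : K1 = K + 1 := by omega
      have h5 : ⌊R⌋₊ < 2 ^ (K + 1) := Nat.lt_pow_succ_log_self (by norm_num) _
      have h6 : 2 ^ K1 ≤ ⌊R⌋₊ := Nat.le_floor (by push_cast; exact hR2)
      rw [h4] at h6
      omega
    · exact h3
  obtain ⟨hk0, hk7, hka, hkl⟩ := hK1 K hKK
  have hKr : (7000 : ℝ) ≤ K := by exact_mod_cast hk7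
  have hKp : (0 : ℝ) < K := by linarith
  set L : ℝ := Real.log R with hL
  set x : ℝ := Real.log K with hx
  have l2a := Real.log_two_gt_d9
  have l2b := Real.log_two_lt_d9
  have hL1 : K * Real.log 2 ≤ L := by
    have h1 := Real.log_le_log (by positivity) hb1
    rwa [Real.log_pow] at h1
  have hL2 : L ≤ (K + 1) * Real.log 2 := by
    have h1 := Real.log_le_log hR0 hb2
    rw [Real.log_pow] at h1
    push_cast at h1
    exact h1
  have hL3 : (K : ℝ) / 2 ≤ L := by nlinarith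
  have hL4 : L ≤ 2 * K := by nlinarith
  have hLp : 0 < L := by linarith
  have hlL : Real.log L ≤ 1 + x := by
    have h1 := Real.log_le_log hLp hL4
    rw [Real.log_mul (by norm_num) hKp.ne'] at h1
    linarith
  refine ⟨K, hk0, by omega, hb1, hb2, ?_, ?_, ?_, ?_⟩
  · unfold rk
    rw [Real.rpow_def_of_pos hR0, Real.exp_le_exp]
    linarith
  · unfold rk
    rw [Real.rpow_def_of_pos hLp, Real.exp_le_exp]
    have h1 : (2 * a + 2) * Real.log L ≤ (2 * a + 2) * (1 + x) :=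
      mul_le_mul_of_nonneg_left hlL (by linarith)
    have h2 : (2 * a + 2) * (1 + x) ≤ x ^ 2 := by nlinarith
    nlinarith
  · unfold rk ak
    rw [Real.exp_neg, div_inv_eq_mul]
    have h1 : R * (64 * Real.exp (Real.log (K : ℝ) ^ 2) / 2 ^ K) = (R / 2 ^ K) * (64 * Real.exp (Real.log (K : ℝ) ^ 2)) := by
      ring
    rw [h1]
    have h2 : (1 : ℝ) ≤ R / 2 ^ K := by
      rw [one_le_div (by positivity)]
      exact hb1
    have h3 : 0 ≤ 64 * Real.exp (Real.log (K : ℝ) ^ 2) := by positivity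
    nlinarith
  · unfold ak
    rw [Real.rpow_def_of_pos hR0, div_le_iff₀ (by positivity)]
    have h1 : R / 2 ≤ 2 ^ K := by
      rw [pow_succ] at hb2
      linarith
    have h2 : 64 * Real.exp (Real.log (K : ℝ) ^ 2) ≤ Real.exp (L * (-1 + 1 / 400)) * (R / 2) := by
      have h3 : R = Real.exp L := (Real.exp_log hR0).symm
      have h4 : Real.exp (L * (-1 + 1 / 400)) * (R / 2) = Real.exp (L / 400) / 2 := by
        have h5 : L / 400 = L * (-1 + 1 / 400) + L := by ring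
        rw [h5, Real.exp_add, ← h3]
        ring
      rw [h4]
      have h6 : Real.exp 5 * Real.exp (Real.log (K : ℝ) ^ 2) ≤ Real.exp (L / 400) := by
        rw [← Real.exp_add, Real.exp_le_exp]
        linarith
      have h7 := mul_le_mul_of_nonneg_right GIV_128 (Real.exp_pos (Real.log (K : ℝ) ^ 2)).le
      linarith
    exact le_trans h2 (mul_le_mul_of_nonneg_left h1 (Real.exp_pos _).le)

end

end Pool.Agent.VQ
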