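import Pool.Agent.helper11.VQ.Spec3b
import Pool.Agent.helper69.VQ.MKZ

/-!
# MP_07c750 (QUE), project VQ, block 3b, row WEZ (mass of a word as a path integral)
-/

set_option autoImplicit false

open scoped MatrixGroups ContDiff Topology UpperHalfPlane ComplexConjugate ENNReal
open UpperHalfPlane MeasureTheory Filter Set

namespace Pool.Agent.VQ

open Pool.Agent.RS
open Pool.Agent.RPQ (CEig mean VV IsOp IsMul OProj wrd PJ nst mks MO Net Cl)

noncomputable section

section wez

variable {Y : Type} [MeasurableSpace Y]

theorem WEZ_congr (m : Measure Y) (a : ℕ) : ∀ s s' : ℕ → Y → Y → ENNReal, (∀ j ≤ a, s j = s' j) →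
    pE m a s = pE m a s' := by
  induction a with
  | zero =>
    intro s s' h
    exact h 0 le_rfl
  | succ a ih =>
    intro s s' h
    funext g k
    show ∫⁻ p, s 0 g p * pE m a (fun j => s (j + 1)) p k ∂m = ∫⁻ p, s' 0 g p * pE m a (fun j => s' (j + 1)) p k ∂m
    rw [h 0 (Nat.zero_le _), ih _ _ (fun j hj => h (j + 1) (Nat.succ_le_succ hj))]

theorem WEZ_sZ {A : Set Y} (hA : MeasurableSet A) {s : Y → Y → ENNReal}
    (hs : Measurable (Function.uncurry s)) (l : List ℕ) (j : ℕ) : Measurable (Function.uncurry (sZ A l s j)) := by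
  have h1 : Measurable fun g : Y => A.indicator (fun _ => (1 : ENNReal)) g := measurable_const.indicator hA
  have h2 : Measurable fun p : Y × Y =>
      (if j ∈ mks l then A.indicator (fun _ => (1 : ENNReal)) p.1 else 1) := by
    by_cases hj : j ∈ mks l
    · simp only [if_pos hj]
      exact h1.comp measurable_fst
    · simp only [if_neg hj]
      exact measurable_const
  have h3 : Measurable fun p : Y × Y =>
      (if j + 1 = nst l then A.indicator (fun _ => (1 : ENNReal)) p.2 else 1) := by
    by_cases hj : j + 1 = nst l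
    · simp only [if_pos hj]
      exact h1.comp measurable_snd
    · simp only [if_neg hj]
      exact measurable_const
  exact (h2.mul hs).mul h3

theorem WEZ_one (hCEZ : CEZ_stmt) (m : Measure Y) [SigmaFinite m] {s : Y → Y → ENNReal}
    (hs : Measurable (Function.uncurry s)) {A : Set Y} (hA : MeasurableSet A) (n : ℕ) (x y : Y) :
    wE m s A [n] x y = pE m (nst [n] - 1) (sZ A [n] s) x y := by
  have hn : nst [n] - 1 = n := by
    unfold nst
    simp
  rw [hn]
  have hI : Measurable (A.indicator (fun _ => (1 : ENNReal))) := measurable_const.indicator hA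
  have h1 := (hCEZ Y m (fun _ => s) (fun _ => hs)).2 n
    (A.indicator (fun _ => (1 : ENNReal))) (A.indicator (fun _ => (1 : ENNReal))) hI hI x y
  have h2 : pE m n (sZ A [n] s) =
      pE m n (fun j g h => (if j = 0 then A.indicator (fun _ => (1 : ENNReal)) g else 1) *
      s g h * (if j = n then A.indicator (fun _ => (1 : ENNReal)) h else 1)) := by
    apply WEZ_congr
    intro j hj
    funext g h
    unfold sZ
    have e1 : j ∈ mks [n] ↔ j = 0 := by
      have : mks [n] = [0, 0 + (n + 1)] := rfl
      rw [this]
      simp only [List.mem_cons, List.not_mem_nil, or_false]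
      constructor
      · rintro (h1 | h1)
        · exact h1
        · omega
      · exact Or.inl
    have e2 : j + 1 = nst [n] ↔ j = n := by
      have : nst [n] = n + 1 := by
        unfold nst
        simp
      rw [this]
      omega
    simp only [e1, e2]
  rw [h2, h1]
  rfl

theorem WEZ_word (hCEZ : CEZ_stmt) (m : Measure Y) [SigmaFinite m] {s : Y → Y → ENNReal}
    (hs : Measurable (Function.uncurry s)) {A : Set Y} (hA : MeasurableSet A) (l : List ℕ) :
    l ≠ [] → wE m s A l = pE m (nst l - 1) (sZ A l s) := by
  induction l with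
  | nil => exact fun h => absurd rfl h
  | cons n l ih =>
    intro _
    cases l with
    | nil =>
      funext g h
      exact WEZ_one hCEZ m hs hA n g h
    | cons k l =>
      funext g h
      have ih' := ih (by simp)
      have hl1 : 1 ≤ nst (k :: l) := MKZ_pos _ (by simp)
      have hn : nst (n :: k :: l) - 1 = n + 1 + (nst (k :: l) - 1) := by
        rw [MKZ_nst]
        omega
      have hw : wE m s A (n :: k :: l) g h =
          ∫⁻ p, A.indicator (fun _ => (1 : ENNReal)) g * pE m n (fun _ => s) g p * wE m s A (k :: l) p h ∂m := rfl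
      have hI : Measurable (A.indicator (fun _ => (1 : ENNReal))) := measurable_const.indicator hA
      rw [hw, hn, (hCEZ Y m (sZ A (n :: k :: l) s) (WEZ_sZ hA hs _)).1 n (nst (k :: l) - 1) g h]
      obtain ⟨m1, m2⟩ := MKZ_sZ A s n (k :: l) (by simp)
      have h2 : (fun j => sZ A (n :: k :: l) s (n + 1 + j)) = sZ A (k :: l) s := by
        funext j
        exact m2 j
      rw [h2, ← ih']
      have h3 : ∀ p, pE m n (sZ A (n :: k :: l) s) g p =
          A.indicator (fun _ => (1 : ENNReal)) g * pE m n (fun _ => s) g p := by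
        intro p
        have h1 := (hCEZ Y m (fun _ => s) (fun _ => hs)).2 n
          (A.indicator (fun _ => (1 : ENNReal))) (fun _ => 1) hI measurable_const g p
        have h4 : pE m n (sZ A (n :: k :: l) s) =
            pE m n (fun j g h => (if j = 0 then A.indicator (fun _ => (1 : ENNReal)) g else 1) *
              s g h * (if j = n then (fun _ => (1 : ENNReal)) h else 1)) := by
          apply WEZ_congr
          intro j hj
          rw [m1 j hj]
          funext g h
          simp only [ite_self, mul_one]
        rw [h4, h1, mul_one]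
      simp only [h3]

end wez

theorem WEZ_proof (hCEZ : CEZ_stmt) (hUNZ : UNZ_stmt) (hVXZ : VXZ_stmt) : WEZ_stmt := by
  intro Y _ m _ M A l hM hA hl
  have _h := hVXZ
  have hs : Measurable (Function.uncurry fun x y => M x y ^ 2) := hM.pow_const 2
  have hl1 : 1 ≤ nst l := MKZ_pos _ hl
  have hn : nst l - 1 + 1 = nst l := by omega
  obtain ⟨h1, h2⟩ := hUNZ Y m (sZ A l (fun x y => M x y ^ 2)) (WEZ_sZ hA hs l) (nst l - 1)
  rw [WEZ_word hCEZ m hs hA l hl]
  refine ⟨h1, fun x y => ?_⟩
  rw [h2 x y]
  apply lintegral_congr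
  intro v
  rw [hn, MKZ_prod A (fun x y => M x y ^ 2) l (vz x y v) hl]
  unfold inZ wM
  by_cases hw : ∀ j ∈ mks l, vz x y v j ∈ A
  · have hw' : vz x y v ∈ {w : ℕ → Y | ∀ j ∈ mks l, w j ∈ A} := hw
    rw [Set.indicator_of_mem hw', Set.indicator_of_mem hw', one_mul, Finset.prod_pow]
  · have hw' : vz x y v ∉ {w : ℕ → Y | ∀ j ∈ mks l, w j ∈ A} := hw
    rw [Set.indicator_of_notMem hw', Set.indicator_of_notMem hw', zero_mul]

end

end Pool.Agent.VQ
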