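import Pool.Agent.helper11.VQ.Spec3c
import Pool.Agent.helper55.RPQ.LIP

/-!
# MP_07c750 (QUE), project VQ, blocks 3c and 3d, row PCL (close conformal factors)
-/

set_option autoImplicit false

open scoped MatrixGroups ContDiff Topology UpperHalfPlane ComplexConjugate ENNReal
open UpperHalfPlane MeasureTheory Filter Set

namespace Pool.Agent.VQ

open Pool.Agent.RS
open Pool.Agent.RPQ (CkB)

noncomputable section

/-- the Moebius map from the disc to the half-plane -/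
def PCL_m (w : ℂ) : ℂ := Complex.I * (2 + w) / (2 - w)

theorem PCL_m0 : PCL_m 0 = Complex.I := by
  unfold PCL_m
  rw [add_zero, sub_zero, mul_div_assoc, div_self two_ne_zero, mul_one]

theorem PCL_mder : HasFDerivAt PCL_m (Complex.I • (1 : ℂ →L[ℝ] ℂ)) 0 := by
  have h1 : HasDerivAt (fun w : ℂ => Complex.I * (2 + w)) Complex.I 0 := by
    have h := ((hasDerivAt_id (0 : ℂ)).const_add 2).const_mul Complex.I
    simpa using h
  have h2 : HasDerivAt (fun w : ℂ => 2 - w) (-1) 0 := by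
    have h := (hasDerivAt_id (0 : ℂ)).const_sub 2
    simpa using h
  have h3 := h1.div h2 (by norm_num : (2 : ℂ) - 0 ≠ 0)
  have h4 : (Complex.I * (2 - 0) - Complex.I * (2 + 0) * (-1)) / (2 - 0) ^ 2 = Complex.I := by
    ring
  rw [h4] at h3
  exact h3.complexToReal_fderiv

theorem PCL_comp (H : ℂ → ℝ) (hH : DifferentiableAt ℝ H Complex.I) :
    ∃ L : ℂ →L[ℝ] ℝ, HasFDerivAt (fun w => H (PCL_m w)) L 0 ∧
      L = (fderiv ℝ H Complex.I).comp (Complex.I • (1 : ℂ →L[ℝ] ℂ)) := by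
  have h1 : HasFDerivAt H (fderiv ℝ H Complex.I) (PCL_m 0) := by
    rw [PCL_m0]
    exact hH.hasFDerivAt
  exact ⟨_, HasFDerivAt.comp (0 : ℂ) h1 PCL_mder, rfl⟩

theorem PCL_nrm (T : ℂ →L[ℝ] ℝ) : ‖T.comp (Complex.I • (1 : ℂ →L[ℝ] ℂ))‖ ≤ ‖T‖ := by
  refine ContinuousLinearMap.opNorm_le_bound _ (norm_nonneg _) fun w => ?_
  have h1 : (T.comp (Complex.I • (1 : ℂ →L[ℝ] ℂ))) w = T (Complex.I * w) := by
    simp
  rw [h1]
  have h2 := T.le_opNorm (Complex.I * w)
  rwa [norm_mul, Complex.norm_I, one_mul] at h2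

theorem PCL_e2 : Real.exp 2 ≤ 9 := by
  have h1 := Real.exp_one_lt_d9
  have h2 : Real.exp 2 = Real.exp 1 ^ 2 := by
    rw [← Real.exp_nat_mul]
    norm_num
  rw [h2]
  have h3 : Real.exp 1 ≤ 3 := by linarith
  have h4 := Real.exp_pos 1
  nlinarith

theorem PCL_exp (a b η : ℝ) (_h0 : 0 ≤ η) (h1 : η ≤ 1) (ha : |a| ≤ 1) (hab : |a - b| ≤ η) :
    |Real.exp a - Real.exp b| ≤ 18 * η := by
  have hb : b ≤ 2 := by
    rw [abs_le] at ha hab
    linarith [ha.1, ha.2, hab.1, hab.2]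
  have h2 : Real.exp a - Real.exp b = Real.exp b * (Real.exp (a - b) - 1) := by
    rw [mul_sub, mul_one, ← Real.exp_add]
    have : b + (a - b) = a := by ring
    rw [this]
  have h3 : |Real.exp (a - b) - 1| ≤ 2 * |a - b| := Real.abs_exp_sub_one_le (le_trans hab h1)
  have h4 : Real.exp b ≤ 9 := le_trans (Real.exp_le_exp.mpr hb) PCL_e2
  rw [h2, abs_mul, abs_of_pos (Real.exp_pos b)]
  calc Real.exp b * |Real.exp (a - b) - 1| ≤ 9 * (2 * η) :=
        mul_le_mul h4 (le_trans h3 (by linarith)) (abs_nonneg _) (by norm_num)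
    _ = 18 * η := by ring

theorem PCL_one (H H' : ℂ → ℝ) (η : ℝ) (h0 : 0 ≤ η) (h1 : η ≤ 1)
    (hH : DifferentiableAt ℝ H Complex.I) (hH' : DifferentiableAt ℝ H' Complex.I)
    (a0 : |H Complex.I| ≤ 1) (a1 : ‖fderiv ℝ H Complex.I‖ ≤ 1)
    (b0 : |H Complex.I - H' Complex.I| ≤ η)
    (b1 : ‖fderiv ℝ H Complex.I - fderiv ℝ H' Complex.I‖ ≤ η) :
    ‖fderiv ℝ (fun w => Real.exp (H (PCL_m w)) - Real.exp (H' (PCL_m w))) 0‖ ≤ 100 * η := by
  obtain ⟨L, hL, eL⟩ := PCL_comp H hH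
  obtain ⟨L', hL', eL'⟩ := PCL_comp H' hH'
  have h2 := hL.exp.sub hL'.exp
  have h3 : (fun w => Real.exp (H (PCL_m w)) - Real.exp (H' (PCL_m w))) =
    (fun w => Real.exp (H (PCL_m w))) - fun w => Real.exp (H' (PCL_m w)) := rfl
  rw [h3, h2.fderiv, PCL_m0]
  have nL : ‖L‖ ≤ 1 := by
    rw [eL]
    exact le_trans (PCL_nrm _) a1
  have nLL : ‖L - L'‖ ≤ η := by
    have e : L - L' = (fderiv ℝ H Complex.I - fderiv ℝ H' Complex.I).comp (Complex.I • (1 : ℂ →L[ℝ] ℂ)) := by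
      rw [eL, eL', ContinuousLinearMap.sub_comp]
    rw [e]
    exact le_trans (PCL_nrm _) b1
  have nL' : ‖L'‖ ≤ 2 := by
    have e : L' = L - (L - L') := by abel
    rw [e]
    have := norm_sub_le L (L - L')
    linarith
  have he := PCL_exp (H Complex.I) (H' Complex.I) η h0 h1 a0 b0
  have h4 : Real.exp (H Complex.I) ≤ 9 :=
    le_trans (Real.exp_le_exp.mpr (by linarith [(abs_le.mp a0).2])) PCL_e2
  have h5 : Real.exp (H Complex.I) • L - Real.exp (H' Complex.I) • L' =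
      Real.exp (H Complex.I) • (L - L') + (Real.exp (H Complex.I) - Real.exp (H' Complex.I)) • L' := by
    refine ContinuousLinearMap.ext fun w => ?_
    show Real.exp (H Complex.I) * L w - Real.exp (H' Complex.I) * L' w =
      Real.exp (H Complex.I) * (L w - L' w) + (Real.exp (H Complex.I) - Real.exp (H' Complex.I)) * L' w
    ring
  rw [h5]
  have h6 : ‖Real.exp (H Complex.I) • (L - L')‖ ≤ 9 * η := by
    rw [norm_smul, Real.norm_eq_abs, abs_of_pos (Real.exp_pos _)]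
    exact mul_le_mul h4 nLL (norm_nonneg _) (by norm_num)
  have h7 : ‖(Real.exp (H Complex.I) - Real.exp (H' Complex.I)) • L'‖ ≤ 18 * η * 2 := by
    rw [norm_smul, Real.norm_eq_abs]
    exact mul_le_mul he nL' (norm_nonneg _) (by linarith)
  have h8 := norm_add_le (Real.exp (H Complex.I) • (L - L')) ((Real.exp (H Complex.I) - Real.exp (H' Complex.I)) • L')
  linarith

theorem PCL_diff (G : ℍ → ℝ) (hG : QU.CD ∞ G) (g : SL(2, ℝ)) :
    DifferentiableAt ℝ (QU.onC fun z => G (g • z)) Complex.I := by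
  have h1 : QU.CD ∞ (fun z => G (g • z)) := Pool.Agent.RPQ.LIP_cd G g ∞ hG
  unfold QU.CD at h1
  exact (h1.contDiffAt (Pool.Agent.RPQ.LIP_open.mem_nhds (by simp))).differentiableAt (by simp)

theorem PCL_proof : PCL_stmt := by
  refine ⟨100, by norm_num, ?_⟩
  intro G G' η hG hG' h0 h1 hB hB' g n hn
  have hI : ((I : ℍ) : ℂ) = Complex.I := rfl
  have a0 : |QU.onC (fun z => G (g • z)) Complex.I| ≤ 1 := by
    have h := hB 0 (by norm_num) g
    rwa [hI, norm_iteratedFDeriv_zero, Real.norm_eq_abs] at h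
  have b0 : |QU.onC (fun z => G (g • z)) Complex.I - QU.onC (fun z => G' (g • z)) Complex.I| ≤ η := by
    have h := hB' 0 (by norm_num) g
    rwa [hI, norm_iteratedFDeriv_zero, Real.norm_eq_abs] at h
  have hfun : (fun w => Ug (fun z => Real.exp (G z)) g w - Ug (fun z => Real.exp (G' z)) g w) =
      fun w => Real.exp (QU.onC (fun z => G (g • z)) (PCL_m w)) -
        Real.exp (QU.onC (fun z => G' (g • z)) (PCL_m w)) := rfl
  rw [hfun]
  interval_cases n
  · rw [norm_iteratedFDeriv_zero, Real.norm_eq_abs, PCL_m0]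
    have h := PCL_exp _ _ η h0 h1 a0 b0
    linarith
  · have a1 : ‖fderiv ℝ (QU.onC fun z => G (g • z)) Complex.I‖ ≤ 1 := by
      have h := hB 1 le_rfl g
      rwa [hI, norm_iteratedFDeriv_one] at h
    have b1 : ‖fderiv ℝ (QU.onC fun z => G (g • z)) Complex.I - fderiv ℝ (QU.onC fun z => G' (g • z)) Complex.I‖ ≤ η := by
      have h := hB' 1 le_rfl g
      rw [hI, norm_iteratedFDeriv_one] at h
      have e : (QU.onC fun z : ℍ => G (g • z) - G' (g • z)) =
        (QU.onC fun z => G (g • z)) - QU.onC fun z => G' (g • z) := rfl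
      rw [e, fderiv_sub (PCL_diff G hG g) (PCL_diff G' hG' g)] at h
      exact h
    rw [norm_iteratedFDeriv_one]
    exact PCL_one _ _ η h0 h1 (PCL_diff G hG g) (PCL_diff G' hG' g) a0 a1 b0 b1

end

end Pool.Agent.VQ
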