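import Pool.Agent.helper76.VQ.FLU

/-!
# MP_07c750 (QUE), project VQ, block FL, row FLA (symmetries of the flow)
-/

set_option autoImplicit false

open scoped MatrixGroups ContDiff Topology UpperHalfPlane ComplexConjugate ENNReal
open UpperHalfPlane MeasureTheory Filter Set

namespace Pool.Agent.VQ

open Pool.Agent.RS
open Pool.Agent.VQE (nm)

noncomputable section

theorem FLA_mul (g h : SL(2, ℝ)) (i j : Fin 2) : (g * h).1 i j = g.1 i 0 * h.1 0 j + g.1 i 1 * h.1 1 j := by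
  have h1 : (g * h).1 = g.1 * h.1 := rfl
  rw [h1, Matrix.mul_apply, Fin.sum_univ_two]

theorem FLA_XX (U : ℍ → ℝ) (E : ℝ) (g h : SL(2, ℝ)) (h1 : rho U E g = rho U E h) (h2 : kap U E g = kap U E h) :
    XX U E g = XX U E h := by
  unfold XX
  rw [h1, h2]

/-- left multiplication -/
theorem FLA_left (U : ℍ → ℝ) (E : ℝ) (γ : SL(2, ℝ)) (f : ℝ → SL(2, ℝ))
    (hf : ∀ t i j, HasDerivAt (fun s => (f s).1 i j) (((f t).1 * XX U E (f t)) i j) t)
    (hX : ∀ t, XX U E (γ * f t) = XX U E (f t)) :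
    ∀ t i j, HasDerivAt (fun s => (γ * f s).1 i j) (((γ * f t).1 * XX U E (γ * f t)) i j) t := by
  intro t i j
  rw [hX t]
  have h0 := (hf t 0 j).const_mul (γ.1 i 0)
  have h1 := (hf t 1 j).const_mul (γ.1 i 1)
  have h2 := h0.add h1
  have e1 : (fun s => (γ * f s).1 i j) = (fun s => γ.1 i 0 * (f s).1 0 j) + fun s => γ.1 i 1 * (f s).1 1 j := by
    funext s
    exact FLA_mul _ _ _ _
  have e2 : ((γ * f t).1 * XX U E (f t)) i j =
      γ.1 i 0 * ((f t).1 * XX U E (f t)) 0 j + γ.1 i 1 * ((f t).1 * XX U E (f t)) 1 j := by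
    have e3 : (γ * f t).1 = γ.1 * (f t).1 := rfl
    rw [e3, Matrix.mul_assoc, Matrix.mul_apply, Fin.sum_univ_two]
  rw [e1, e2]
  exact h2

/-- the opposite matrix -/
theorem FLA_neg (U : ℍ → ℝ) (E : ℝ) (f : ℝ → SL(2, ℝ))
    (hf : ∀ t i j, HasDerivAt (fun s => (f s).1 i j) (((f t).1 * XX U E (f t)) i j) t)
    (hX : ∀ t, XX U E (-f t) = XX U E (f t)) :
    ∀ t i j, HasDerivAt (fun s => (-f s).1 i j) (((-f t).1 * XX U E (-f t)) i j) t := by
  intro t i j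
  rw [hX t]
  have e1 : (fun s => (-f s).1 i j) = -fun s => (f s).1 i j := rfl
  have e2 : ((-f t).1 * XX U E (f t)) i j = -((f t).1 * XX U E (f t)) i j := by
    have e3 : (-f t).1 = -(f t).1 := rfl
    rw [e3, Matrix.neg_mul]
    rfl
  rw [e1, e2]
  exact (hf t i j).neg

/-- the frame `h k⁻¹`, `k = kM (π/2)` -/
theorem FLA_k (h : SL(2, ℝ)) (i : Fin 2) : (h * (kM (Real.pi / 2))⁻¹).1 i 0 = h.1 i 1 ∧
    (h * (kM (Real.pi / 2))⁻¹).1 i 1 = -h.1 i 0 := by
  have k00 : (kM (Real.pi / 2))⁻¹.1 0 0 = 0 := by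
    rw [Matrix.SpecialLinearGroup.coe_inv, Matrix.adjugate_fin_two]
    show (kM (Real.pi / 2)).1 1 1 = 0
    exact Real.cos_pi_div_two
  have k01 : (kM (Real.pi / 2))⁻¹.1 0 1 = -1 := by
    rw [Matrix.SpecialLinearGroup.coe_inv, Matrix.adjugate_fin_two]
    show -(kM (Real.pi / 2)).1 0 1 = -1
    rw [neg_inj]
    exact Real.sin_pi_div_two
  have k10 : (kM (Real.pi / 2))⁻¹.1 1 0 = 1 := by
    rw [Matrix.SpecialLinearGroup.coe_inv, Matrix.adjugate_fin_two]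
    show -(kM (Real.pi / 2)).1 1 0 = 1
    have : (kM (Real.pi / 2)).1 1 0 = -Real.sin (Real.pi / 2) := rfl
    rw [this, Real.sin_pi_div_two, neg_neg]
  have k11 : (kM (Real.pi / 2))⁻¹.1 1 1 = 0 := by
    rw [Matrix.SpecialLinearGroup.coe_inv, Matrix.adjugate_fin_two]
    show (kM (Real.pi / 2)).1 0 0 = 0
    exact Real.cos_pi_div_two
  rw [FLA_mul, FLA_mul, k00, k01, k10, k11]
  constructor <;> ring

/-- reversal of the time -/
theorem FLA_rev (U : ℍ → ℝ) (E : ℝ) (f : ℝ → SL(2, ℝ))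
    (hf : ∀ t i j, HasDerivAt (fun s => (f s).1 i j) (((f t).1 * XX U E (f t)) i j) t)
    (hr : ∀ m : SL(2, ℝ), rho U E (m * kM (Real.pi / 2)) = rho U E m)
    (hk : ∀ m : SL(2, ℝ), kap U E (m * kM (Real.pi / 2)) = -kap U E m) :
    ∀ t i j, HasDerivAt (fun s => (f (-s) * (kM (Real.pi / 2))⁻¹).1 i j)
      (((f (-t) * (kM (Real.pi / 2))⁻¹).1 * XX U E (f (-t) * (kM (Real.pi / 2))⁻¹)) i j) t := by
  intro t i j
  have hneg : ∀ l, HasDerivAt (fun s => (f (-s)).1 i l) (-(((f (-t)).1 * XX U E (f (-t))) i l)) t := by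
    intro l
    have h1 := (hf (-t) i l).scomp t (hasDerivAt_neg t)
    have h2 : (-1 : ℝ) • (((f (-t)).1 * XX U E (f (-t))) i l) = -(((f (-t)).1 * XX U E (f (-t))) i l) := by
      rw [smul_eq_mul]
      ring
    rw [h2] at h1
    exact h1
  obtain ⟨m, hm⟩ : ∃ m : SL(2, ℝ), m = f (-t) * (kM (Real.pi / 2))⁻¹ := ⟨_, rfl⟩
  have hmf : f (-t) = m * kM (Real.pi / 2) := by
    rw [hm, inv_mul_cancel_right]
  have h1 : rho U E (f (-t)) = rho U E m := by rw [hmf, hr]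
  have h2 : kap U E (f (-t)) = -kap U E m := by rw [hmf, hk]
  obtain ⟨a0, a1⟩ := FLA_k (f (-t)) i
  rw [← hm] at a0 a1 ⊢
  have g0 := hneg 0
  have g1 := hneg 1
  rw [(FLU_mul U E _ _ i).1, h1, h2] at g0
  rw [(FLU_mul U E _ _ i).2, h1, h2] at g1
  have hj : j = 0 ∨ j = 1 := by omega
  rcases hj with rfl | rfl
  · have e1 : (fun s => (f (-s) * (kM (Real.pi / 2))⁻¹).1 i 0) = fun s => (f (-s)).1 i 1 := by
      funext s
      exact (FLA_k _ _).1
    have e2 : (m.1 * XX U E m) i 0 = -((f (-t)).1 i 0 * (-kap U E m / 2) + (f (-t)).1 i 1 * (-(rho U E m / 2))) := by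
      rw [(FLU_mul U E _ _ i).1, a0, a1]
      ring
    rw [e1, e2]
    exact g1
  · have e1 : (fun s => (f (-s) * (kM (Real.pi / 2))⁻¹).1 i 1) = -fun s => (f (-s)).1 i 0 := by
      funext s
      exact (FLA_k _ _).2
    have e2 : (m.1 * XX U E m) i 1 = -(-((f (-t)).1 i 0 * (rho U E m / 2) + (f (-t)).1 i 1 * (-(-kap U E m / 2)))) := by
      rw [(FLU_mul U E _ _ i).2, a0, a1]
      ring
    rw [e1, e2]
    exact g0.neg

theorem FLA_proof (hFLU : FLU_stmt) (hROT : ROT_stmt) (hVUG : VUG_stmt) : FLA_stmt := by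
  intro Γ e B D hD E hE
  have hun := (hFLU Γ e B D hD).2 E
  have hV := (hVUG Γ e B D.U hD.pot).2.2.2.1
  have hd := fun (t : ℝ) (g : SL(2, ℝ)) => hD.dfl E t g hE
  refine ⟨?_, ?_, ?_, ?_⟩
  · intro s t g
    have h1 := hun (fun s => D.fl E (s + t) g) hE (fun s i j => (hd (s + t) g i j).comp_add_const s t) s
    simp only [zero_add] at h1
    exact h1
  · intro γ t g
    have h1 := hun (fun s => (γ : SL(2, ℝ)) * D.fl E s g) hE
      (FLA_left D.U E γ (fun s => D.fl E s g) (fun t i j => hd t g i j)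
        (fun t => FLA_XX _ _ _ _ (hV γ (D.fl E t g) E).2.2.2.2.1 (hV γ (D.fl E t g) E).2.2.2.2.2)) t
    simp only [hD.fl0] at h1
    exact h1.symm
  · intro t g
    have h1 := hun (fun s => -D.fl E s g) hE
      (FLA_neg D.U E (fun s => D.fl E s g) (fun t i j => hd t g i j)
        (fun t => FLA_XX _ _ _ _ (hROT D.U (D.fl E t g) E).2.2.2.2.2.2.2.1 (hROT D.U (D.fl E t g) E).2.2.2.2.2.2.2.2)) t
    simp only [hD.fl0] at h1
    exact h1.symm
  · intro t g
    have h1 := hun (fun s => D.fl E (-s) (g * kM (Real.pi / 2)) * (kM (Real.pi / 2))⁻¹) hE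
      (FLA_rev D.U E (fun s => D.fl E s (g * kM (Real.pi / 2))) (fun t i j => hd t _ i j)
        (fun m => (hROT D.U m E).2.1) (fun m => (hROT D.U m E).2.2.1)) t
    simp only [neg_zero, hD.fl0, mul_inv_cancel_right] at h1
    rw [← h1, inv_mul_cancel_right]

end

end Pool.Agent.VQ
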