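import Pool.Agent.helper80.VQ.SpecFL

/-!
# MP_07c750 (QUE), project VQ, block FL, row FLU (identification of the flow and uniqueness)
-/

set_option autoImplicit false

open scoped MatrixGroups ContDiff Topology UpperHalfPlane ComplexConjugate ENNReal
open UpperHalfPlane MeasureTheory Filter Set

namespace Pool.Agent.VQ

open Pool.Agent.RS
open Pool.Agent.VQE (nm)

noncomputable section

theorem FLU_XX (U : ℍ → ℝ) (E : ℝ) (g : SL(2, ℝ)) : XX U E g 0 0 = rho U E g / 2 ∧ XX U E g 0 1 = kap U E g / 2 ∧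
    XX U E g 1 0 = -(kap U E g / 2) ∧ XX U E g 1 1 = -(rho U E g / 2) := by
  unfold XX A0 K0
  refine ⟨?_, ?_, ?_, ?_⟩ <;> simp <;> ring

theorem FLU_mul (U : ℍ → ℝ) (E : ℝ) (M : Matrix (Fin 2) (Fin 2) ℝ) (g : SL(2, ℝ)) (i : Fin 2) :
    (M * XX U E g) i 0 = M i 0 * (rho U E g / 2) + M i 1 * (-(kap U E g / 2)) ∧
    (M * XX U E g) i 1 = M i 0 * (kap U E g / 2) + M i 1 * (-(rho U E g / 2)) := by
  obtain ⟨h0, h1, h2, h3⟩ := FLU_XX U E g
  rw [Matrix.mul_apply, Matrix.mul_apply, Fin.sum_univ_two, Fin.sum_univ_two, h0, h1, h2, h3]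
  exact ⟨rfl, rfl⟩

theorem FLU_sol (e C : ℝ) (U : ℍ → ℝ) (ρ κ : F4 × ℝ → ℝ) (hex : Ex4 e C U ρ κ) (E : ℝ) (hE : |E| ≤ e) (h : ℝ → SL(2, ℝ))
    (hh : ∀ t i j, HasDerivAt (fun s => (h s).1 i j) (((h t).1 * XX U E (h t)) i j) t) (t : ℝ) :
    HasDerivAt (fun s => (m4 (h s), E)) (f4 ρ κ (m4 (h t), E)) t := by
  obtain ⟨e1, e2⟩ := hex.eq E 1 (h t) hE (by norm_num) (by norm_num)
  rw [one_smul] at e1 e2
  unfold f4
  rw [e1, e2]
  refine HasDerivAt.prodMk ?_ (hasDerivAt_const t E)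
  rw [hasDerivAt_pi]
  intro k
  have h00 := hh t 0 0
  have h01 := hh t 0 1
  have h10 := hh t 1 0
  have h11 := hh t 1 1
  rw [(FLU_mul U E _ _ 0).1] at h00
  rw [(FLU_mul U E _ _ 0).2] at h01
  rw [(FLU_mul U E _ _ 1).1] at h10
  rw [(FLU_mul U E _ _ 1).2] at h11
  fin_cases k
  · exact h00
  · have e : mu4 (m4 (h t)) (rho U E (h t) / 2) (kap U E (h t) / 2) (-(kap U E (h t) / 2)) 1 =
        (h t).1 0 0 * (kap U E (h t) / 2) + (h t).1 0 1 * (-(rho U E (h t) / 2)) := by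
      show (h t).1 0 0 * (kap U E (h t) / 2) - (h t).1 0 1 * (rho U E (h t) / 2) = _
      ring
    show HasDerivAt (fun s => (h s).1 0 1) (mu4 (m4 (h t)) (rho U E (h t) / 2) (kap U E (h t) / 2) (-(kap U E (h t) / 2)) 1) t
    rw [e]
    exact h01
  · exact h10
  · have e : mu4 (m4 (h t)) (rho U E (h t) / 2) (kap U E (h t) / 2) (-(kap U E (h t) / 2)) 3 =
        (h t).1 1 0 * (kap U E (h t) / 2) + (h t).1 1 1 * (-(rho U E (h t) / 2)) := by
      show (h t).1 1 0 * (kap U E (h t) / 2) - (h t).1 1 1 * (rho U E (h t) / 2) = _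
      ring
    show HasDerivAt (fun s => (h s).1 1 1) (mu4 (m4 (h t)) (rho U E (h t) / 2) (kap U E (h t) / 2) (-(kap U E (h t) / 2)) 3) t
    rw [e]
    exact h11

theorem FLU_inj (g h : SL(2, ℝ)) (e : m4 g = m4 h) : g = h := by
  have h0 : g.1 0 0 = h.1 0 0 := congrFun e 0
  have h1 : g.1 0 1 = h.1 0 1 := congrFun e 1
  have h2 : g.1 1 0 = h.1 1 0 := congrFun e 2
  have h3 : g.1 1 1 = h.1 1 1 := congrFun e 3
  apply Subtype.ext
  ext i j
  fin_cases i <;> fin_cases j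
  · exact h0
  · exact h1
  · exact h2
  · exact h3

theorem FLU_proof (hEXT : EXT_stmt) (hFX4 : FX4_stmt) : FLU_stmt := by
  intro Γ e B D hD
  obtain ⟨C, ρ, κ, hex⟩ := hEXT Γ e B D.U hD.pot
  obtain ⟨Φ, fl, hF, -, -, -⟩ := hFX4 e C D.U ρ κ hex
  have heq : ∀ (E t : ℝ) (g : SL(2, ℝ)), |E| ≤ e → Φ t (m4 g, E) = (m4 (D.fl E t g), E) := by
    intro E t g hE
    have h1 := hF.un (fun s => (m4 (D.fl E s g), E))
      (fun t => FLU_sol e C D.U ρ κ hex E hE (fun s => D.fl E s g) (fun t i j => hD.dfl E t g hE i j) t) t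
    simp only [hD.fl0] at h1
    exact h1.symm
  refine ⟨⟨C, ρ, κ, Φ, ⟨hex, hF.flow, hF.un, hF.dt, heq⟩⟩, ?_⟩
  intro E h hE hh t
  have h1 := hF.un (fun s => (m4 (h s), E)) (fun t => FLU_sol e C D.U ρ κ hex E hE h hh t) t
  rw [heq E t (h 0) hE] at h1
  exact FLU_inj _ _ (congrArg Prod.fst h1)

end

end Pool.Agent.VQ
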