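import Pool.Agent.helper80.VQ.SpecFL

/-!
# MP_07c750 (QUE), project VQ, block FL, row LPZ (the fields are Lipschitz, absolute constant)
-/

set_option autoImplicit false

open scoped MatrixGroups ContDiff Topology UpperHalfPlane ComplexConjugate ENNReal
open UpperHalfPlane MeasureTheory Filter Set

namespace Pool.Agent.VQ

open Pool.Agent.RS
open Pool.Agent.VQE (nm ze et one2 mt CB)

noncomputable section

theorem LPZ_nm (x : SL(2, ℝ)) (i j : Fin 2) : |x.1 i j - one2 i j| ≤ nm x := by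
  unfold nm
  have e0 : one2 0 0 = 1 := by simp [one2]
  have e1 : one2 1 1 = 1 := by simp [one2]
  have e2 : one2 0 1 = 0 := by simp [one2]
  have e3 : one2 1 0 = 0 := by simp [one2]
  have hi : i = 0 ∨ i = 1 := by omega
  have hj : j = 0 ∨ j = 1 := by omega
  rcases hi with rfl | rfl <;> rcases hj with rfl | rfl
  · rw [e0]
    exact le_trans (le_max_left _ _) (le_max_left _ _)
  · rw [e2, sub_zero]
    exact le_trans (le_max_right _ _) (le_max_left _ _)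
  · rw [e3, sub_zero]
    exact le_trans (le_max_left _ _) (le_max_right _ _)
  · rw [e1]
    exact le_trans (le_max_right _ _) (le_max_right _ _)

theorem LPZ_nn (x : SL(2, ℝ)) : 0 ≤ nm x := le_trans (abs_nonneg _) (LPZ_nm x 0 0)

theorem LPZ_dist (x : SL(2, ℝ)) : ‖mt x - one2‖ ≤ nm x := by
  rw [pi_norm_le_iff_of_nonneg (LPZ_nn x)]
  intro i
  rw [pi_norm_le_iff_of_nonneg (LPZ_nn x)]
  intro j
  exact LPZ_nm x i j

theorem LPZ_lip (ζ : (Fin 2 → Fin 2 → ℝ) → ℂ) (K : ℝ) (hK : 0 ≤ K) (h : CB (Metric.closedBall one2 (1 / 10)) K ζ) (x : SL(2, ℝ))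
    (hx : nm x ≤ 1 / 10) : ‖ζ (mt x) - ζ one2‖ ≤ K * nm x := by
  have h1 : mt x ∈ Metric.closedBall one2 (1 / 10 : ℝ) := by
    rw [Metric.mem_closedBall, dist_eq_norm]
    exact le_trans (LPZ_dist x) hx
  have h2 : one2 ∈ Metric.closedBall one2 (1 / 10 : ℝ) := Metric.mem_closedBall_self (by norm_num)
  have h3 := Convex.norm_image_sub_le_of_norm_fderiv_le (𝕜 := ℝ) (f := ζ) (fun z hz => h.diff z hz)
    (fun z hz => h.b1 z hz) (convex_closedBall _ _) h2 h1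
  exact le_trans h3 (mul_le_mul_of_nonneg_left (LPZ_dist x) hK)

theorem LPZ_ze1 : ze one2 = 0 := by
  have e0 : one2 0 0 = 1 := by simp [one2]
  have e1 : one2 1 1 = 1 := by simp [one2]
  have e2 : one2 0 1 = 0 := by simp [one2]
  have e3 : one2 1 0 = 0 := by simp [one2]
  unfold ze
  rw [e0, e1, e2, e3]
  simp

theorem LPZ_et1 : et one2 = 1 := by
  have e0 : one2 0 0 = 1 := by simp [one2]
  have e1 : one2 1 1 = 1 := by simp [one2]
  have e2 : one2 0 1 = 0 := by simp [one2]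
  have e3 : one2 1 0 = 0 := by simp [one2]
  unfold et
  rw [e0, e1, e2, e3]
  have h1 : ((((0 : ℝ) - 0 : ℝ) : ℂ) + ((1 + 1 : ℝ) : ℂ) * Complex.I) ^ 2 = -4 := by
    push_cast
    have h2 : ((0 : ℂ) - 0 + (1 + 1) * Complex.I) ^ 2 = 4 * (Complex.I ^ 2) := by ring
    rw [h2, Complex.I_sq]
    ring
  rw [h1]
  norm_num

theorem LPZ_fd (f : ℂ → ℝ) (b : ℝ) (h1 : ∀ v : ℂ, ‖v‖ ≤ 1 → ContDiffAt ℝ ∞ f v)
    (h2 : ∀ v : ℂ, ‖v‖ ≤ 1 → ‖iteratedFDeriv ℝ 2 f v‖ ≤ b) (m : ℂ) (hm : ‖m‖ ≤ 1) :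
    ‖fderiv ℝ f m - fderiv ℝ f 0‖ ≤ b * ‖m‖ := by
  have h3 : ∀ v : ℂ, ‖v‖ ≤ 1 → ‖fderiv ℝ (fderiv ℝ f) v‖ ≤ b := by
    intro v hv
    have h4 := h2 v hv
    have h5 : ‖iteratedFDeriv ℝ 1 (fderiv ℝ f) v‖ = ‖iteratedFDeriv ℝ (1 + 1) f v‖ :=
      norm_iteratedFDeriv_fderiv
    rw [norm_iteratedFDeriv_one] at h5
    rw [h5]
    exact h4
  have h6 : ∀ v ∈ Metric.closedBall (0 : ℂ) 1, DifferentiableAt ℝ (fderiv ℝ f) v := by
    intro v hv
    rw [mem_closedBall_zero_iff] at hv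
    have h0 : ContDiffAt ℝ 2 f v := by exact_mod_cast (contDiffAt_infty.mp (h1 v hv) 2)
    have h7 : ContDiffAt ℝ 1 (fderiv ℝ f) v := h0.fderiv_right (m := 1) (by norm_num)
    exact h7.differentiableAt (by norm_num)
  have h8 := Convex.norm_image_sub_le_of_norm_fderiv_le (𝕜 := ℝ) (f := fderiv ℝ f) h6
    (fun z hz => h3 z (by rwa [mem_closedBall_zero_iff] at hz)) (convex_closedBall (0 : ℂ) 1)
    (Metric.mem_closedBall_self zero_le_one) (by rwa [mem_closedBall_zero_iff])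
  rw [sub_zero] at h8
  exact h8

theorem LPZ_f (f : ℂ → ℝ) (b : ℝ) (h1 : ∀ v : ℂ, ‖v‖ ≤ 1 → ContDiffAt ℝ ∞ f v)
    (h2 : ∀ v : ℂ, ‖v‖ ≤ 1 → ‖fderiv ℝ f v‖ ≤ b) (m : ℂ) (hm : ‖m‖ ≤ 1) :
    |f m - f 0| ≤ b * ‖m‖ := by
  have h6 : ∀ v ∈ Metric.closedBall (0 : ℂ) 1, DifferentiableAt ℝ f v := by
    intro v hv
    rw [mem_closedBall_zero_iff] at hv
    exact (h1 v hv).differentiableAt (by simp)
  have h8 := Convex.norm_image_sub_le_of_norm_fderiv_le (𝕜 := ℝ) (f := f) h6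
    (fun z hz => h2 z (by rwa [mem_closedBall_zero_iff] at hz)) (convex_closedBall (0 : ℂ) 1)
    (Metric.mem_closedBall_self zero_le_one) (by rwa [mem_closedBall_zero_iff])
  rw [sub_zero, Real.norm_eq_abs] at h8
  exact h8

theorem LPZ_rho (r r' u u' E E' s : ℝ) (hs : 0 < s) (hr : s ≤ r) (hr' : s ≤ r') (h1 : r ^ 2 = u + 2 * E)
    (h2 : r' ^ 2 = u' + 2 * E') : |r' - r| ≤ (|u' - u| + 2 * |E' - E|) / (2 * s) := by
  have h3 : (r' - r) * (r' + r) = (u' - u) + 2 * (E' - E) := by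
    have : (r' - r) * (r' + r) = r' ^ 2 - r ^ 2 := by ring
    rw [this, h1, h2]
    ring
  have h4 : |(r' - r) * (r' + r)| = |r' - r| * (r' + r) := by
    rw [abs_mul, abs_of_nonneg (by linarith : 0 ≤ r' + r)]
  have h5 : |(u' - u) + 2 * (E' - E)| ≤ |u' - u| + 2 * |E' - E| := by
    have := abs_add_le (u' - u) (2 * (E' - E))
    rw [abs_mul, abs_of_nonneg (by norm_num : (0 : ℝ) ≤ 2)] at this
    exact this
  rw [h3] at h4
  have h6 : |r' - r| * (2 * s) ≤ |r' - r| * (r' + r) := mul_le_mul_of_nonneg_left (by linarith) (abs_nonneg _)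
  rw [le_div_iff₀ (by linarith)]
  linarith

theorem LPZ_kap (r r' k k' n n' s k0 : ℝ) (hs : 0 < s) (hr' : s ≤ r') (hk : |k| ≤ k0) (h1 : k * r = n / 2)
    (h2 : k' * r' = n' / 2) : |k' - k| ≤ (|n' - n| / 2 + k0 * |r' - r|) / s := by
  have h3 : (k' - k) * r' = (n' - n) / 2 - k * (r' - r) := by
    have : (k' - k) * r' = k' * r' - k * r - k * (r' - r) := by ring
    rw [this, h1, h2]
    ring
  have h4 : |(k' - k) * r'| = |k' - k| * r' := by
    rw [abs_mul, abs_of_nonneg (by linarith : 0 ≤ r')]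
  have h5 : |(n' - n) / 2 - k * (r' - r)| ≤ |n' - n| / 2 + k0 * |r' - r| := by
    have h6 := abs_sub ((n' - n) / 2) (k * (r' - r))
    rw [abs_div, abs_of_nonneg (by norm_num : (0 : ℝ) ≤ 2), abs_mul k] at h6
    have h7 : |k| * |r' - r| ≤ k0 * |r' - r| := mul_le_mul_of_nonneg_right hk (abs_nonneg _)
    linarith
  rw [h3] at h4
  have h6 : |k' - k| * s ≤ |k' - k| * r' := mul_le_mul_of_nonneg_left hr' (abs_nonneg _)
  rw [le_div_iff₀ hs]
  linarith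

theorem LPZ_k0 (r k n s b : ℝ) (hs : 0 < s) (hr : s ≤ r) (h1 : k * r = n / 2) (hn : |n| ≤ b) : |k| ≤ b / (2 * s) := by
  rw [le_div_iff₀ (by linarith)]
  have h2 : |k| * r = |n| / 2 := by
    have h3 : |k * r| = |k| * r := by rw [abs_mul, abs_of_nonneg (by linarith : 0 ≤ r)]
    rw [← h3, h1, abs_div, abs_of_nonneg (by norm_num : (0 : ℝ) ≤ 2)]
  have h4 : |k| * s ≤ |k| * r := mul_le_mul_of_nonneg_left hr (abs_nonneg _)
  linarith

/-- the estimates near the unit matrix -/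
theorem LPZ_near (hPZE : VQE.PZE_stmt) (K : ℝ) (hK1 : 1 ≤ K) (hze : CB (Metric.closedBall one2 (1 / 10)) K ze)
    (het : CB (Metric.closedBall one2 (1 / 10)) K et) (hz2 : ∀ M ∈ Metric.closedBall one2 (1 / 10), ‖ze M‖ ≤ 1 / 2)
    (U : ℍ → ℝ) (hU : QU.CD ∞ U) (g x : SL(2, ℝ)) (b : ℝ) (hc : ∀ v : ℂ, ‖v‖ ≤ 1 → ContDiffAt ℝ ∞ (Ug U g) v)
    (hb1 : ∀ v : ℂ, ‖v‖ ≤ 1 → ‖fderiv ℝ (Ug U g) v‖ ≤ b) (hb2 : ∀ v : ℂ, ‖v‖ ≤ 1 → ‖iteratedFDeriv ℝ 2 (Ug U g) v‖ ≤ b)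
    (hx : nm x ≤ 1 / 10) : |U ((g * x) • I) - U (g • I)| ≤ b * K * nm x ∧ |n2 U (g * x) - n2 U g| ≤ 2 * b * K ^ 2 * nm x := by
  obtain ⟨-, hP2, hP3⟩ := hPZE
  have hK0 : 0 ≤ K := by linarith
  have hKK2 : K ≤ K ^ 2 := by nlinarith
  have hn := LPZ_nn x
  have hb0 : 0 ≤ b := le_trans (norm_nonneg _) (hb1 0 (by simp))
  obtain ⟨m, hm⟩ : ∃ m : ℂ, m = ze (mt x) := ⟨_, rfl⟩
  obtain ⟨e, he⟩ : ∃ e : ℂ, e = et (mt x) := ⟨_, rfl⟩
  have hmem : mt x ∈ Metric.closedBall one2 (1 / 10 : ℝ) := by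
    rw [Metric.mem_closedBall, dist_eq_norm]
    exact le_trans (LPZ_dist x) hx
  have hm1 : ‖m‖ ≤ 1 := by
    rw [hm]
    exact le_trans (hz2 _ hmem) (by norm_num)
  have hmn : ‖m‖ ≤ K * nm x := by
    have h1 := LPZ_lip ze K hK0 hze x hx
    rwa [LPZ_ze1, sub_zero, ← hm] at h1
  have hen : ‖e - 1‖ ≤ K * nm x := by
    have h1 := LPZ_lip et K hK0 het x hx
    rwa [LPZ_et1, ← he] at h1
  have heK : ‖e‖ ≤ K := by
    rw [he]
    exact het.b0 _ hmem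
  have hU1 : U ((g * x) • I) = Ug U g m := by
    rw [hm]
    exact hP2 U g x
  have hU0 : U (g • I) = Ug U g 0 := by
    have h1 := hP2 U g 1
    have h2 : mt 1 = one2 := by
      funext i j
      show (1 : SL(2, ℝ)).1 i j = one2 i j
      have h3 : (1 : SL(2, ℝ)).1 = (1 : Matrix (Fin 2) (Fin 2) ℝ) := rfl
      rw [h3, Matrix.one_apply]
      rfl
    rw [h2, LPZ_ze1, mul_one] at h1
    exact h1
  constructor
  · rw [hU1, hU0]
    have h1 := LPZ_f (Ug U g) b hc hb1 m hm1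
    have h2 : b * ‖m‖ ≤ b * (K * nm x) := mul_le_mul_of_nonneg_left hmn hb0
    linarith
  · have hn1 : n2 U (g * x) = fderiv ℝ (Ug U g) m (e * Complex.I) := by
      rw [hm, he]
      exact hP3 U g x hU
    have hn0 : n2 U g = fderiv ℝ (Ug U g) 0 Complex.I := rfl
    have hfd := LPZ_fd (Ug U g) b hc hb2 m hm1
    have hf0 : ‖fderiv ℝ (Ug U g) 0‖ ≤ b := hb1 0 (by simp)
    rw [hn1, hn0]
    have h1 : fderiv ℝ (Ug U g) m (e * Complex.I) - fderiv ℝ (Ug U g) 0 Complex.I =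
        (fderiv ℝ (Ug U g) m - fderiv ℝ (Ug U g) 0) (e * Complex.I) + fderiv ℝ (Ug U g) 0 ((e - 1) * Complex.I) := by
      have h2 : (e - 1) * Complex.I = e * Complex.I - Complex.I := by ring
      rw [h2, map_sub]
      show _ = fderiv ℝ (Ug U g) m (e * Complex.I) - fderiv ℝ (Ug U g) 0 (e * Complex.I) + _
      ring
    rw [h1, ← Real.norm_eq_abs]
    have h3 : ‖(fderiv ℝ (Ug U g) m - fderiv ℝ (Ug U g) 0) (e * Complex.I)‖ ≤ (b * (K * nm x)) * K := by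
      refine le_trans (ContinuousLinearMap.le_opNorm _ _) ?_
      rw [norm_mul, Complex.norm_I, mul_one]
      refine mul_le_mul (le_trans hfd ?_) heK (norm_nonneg _) (by positivity)
      exact mul_le_mul_of_nonneg_left hmn hb0
    have h4 : ‖fderiv ℝ (Ug U g) 0 ((e - 1) * Complex.I)‖ ≤ b * (K * nm x) := by
      refine le_trans (ContinuousLinearMap.le_opNorm _ _) ?_
      rw [norm_mul, Complex.norm_I, mul_one]
      exact mul_le_mul hf0 hen (norm_nonneg _) hb0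
    have h5 := norm_add_le ((fderiv ℝ (Ug U g) m - fderiv ℝ (Ug U g) 0) (e * Complex.I)) (fderiv ℝ (Ug U g) 0 ((e - 1) * Complex.I))
    have h6 : K * nm x ≤ K ^ 2 * nm x := mul_le_mul_of_nonneg_right hKK2 hn
    have h7 : b * (K * nm x) ≤ b * (K ^ 2 * nm x) := mul_le_mul_of_nonneg_left h6 hb0
    have h8 : b * (K * nm x) * K = b * (K ^ 2 * nm x) := by ring
    rw [h8] at h3
    linarith

theorem LPZ_proof (hVUG : VUG_stmt) (hPZE : VQE.PZE_stmt) (hPZC : VQE.PZC_stmt) : LPZ_stmt := by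
  intro e b he
  obtain ⟨K, hK1, hze, het, hz2⟩ := hPZC
  have hK0 : 0 ≤ K := by linarith
  obtain ⟨s, hs⟩ : ∃ s : ℝ, s = Real.sqrt (2 * e) := ⟨_, rfl⟩
  have hs0 : 0 < s := by rw [hs]; exact Real.sqrt_pos.mpr (by linarith)
  obtain ⟨c, hcd⟩ : ∃ c : ℝ, c = |b| := ⟨_, rfl⟩
  have hc0 : 0 ≤ c := by rw [hcd]; exact abs_nonneg b
  have hbc : b ≤ c := by rw [hcd]; exact le_abs_self b
  obtain ⟨S, hS⟩ : ∃ S : ℝ, S = Real.sqrt (c + 2 * e) := ⟨_, rfl⟩
  have hS0 : 0 ≤ S := by rw [hS]; exact Real.sqrt_nonneg _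
  obtain ⟨k0, hk0⟩ : ∃ k0 : ℝ, k0 = c / (2 * s) := ⟨_, rfl⟩
  have hk00 : 0 ≤ k0 := by rw [hk0]; positivity
  obtain ⟨c1, hc1⟩ : ∃ c1 : ℝ, c1 = (c * K + 2) / (2 * s) := ⟨_, rfl⟩
  have hc10 : 0 ≤ c1 := by rw [hc1]; positivity
  obtain ⟨c2, hc2⟩ : ∃ c2 : ℝ, c2 = (c * K ^ 2 + k0 * c1) / s := ⟨_, rfl⟩
  have hc20 : 0 ≤ c2 := by rw [hc2]; positivity
  refine ⟨1 + c1 + c2 + 20 * S + 20 * k0, by linarith, ?_⟩
  intro Γ B U hB0 hB1 hB2 hP E E' g x hE hE'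
  obtain ⟨hb, hr, -, -, hc⟩ := hVUG Γ e B U hP
  obtain ⟨r1, r3, r4, r5, r6⟩ := hr E g hE
  obtain ⟨s1, s3, s4, s5, s6⟩ := hr E' (g * x) hE'
  have hn := LPZ_nn x
  have hEE := abs_nonneg (E' - E)
  have hsr : s ≤ rho U E g := by
    rw [hs]
    exact Real.sqrt_le_iff.mpr ⟨r1.le, r4⟩
  have hsr' : s ≤ rho U E' (g * x) := by
    rw [hs]
    exact Real.sqrt_le_iff.mpr ⟨s1.le, s4⟩
  have hrS : rho U E g ≤ S := by
    rw [hS]
    exact Real.le_sqrt_of_sq_le (by linarith)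
  have hrS' : rho U E' (g * x) ≤ S := by
    rw [hS]
    exact Real.le_sqrt_of_sq_le (by linarith)
  have hk : |kap U E g| ≤ k0 := by
    rw [hk0]
    exact LPZ_k0 _ _ _ s c hs0 hsr r6 (le_trans (hb g).2.2.2.1 (by linarith))
  have hk' : |kap U E' (g * x)| ≤ k0 := by
    rw [hk0]
    exact LPZ_k0 _ _ _ s c hs0 hsr' s6 (le_trans (hb (g * x)).2.2.2.1 (by linarith))
  have hT : 0 ≤ nm x + |E' - E| := by linarith
  rcases le_or_gt (nm x) (1 / 10) with hx | hx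
  · obtain ⟨hdU, hdn⟩ := LPZ_near hPZE K hK1 hze het hz2 U hP.smooth g x c (hc g)
      (fun v hv => by
        have h1 := hP.bd g v hv 1
        rw [norm_iteratedFDeriv_one] at h1
        linarith)
      (fun v hv => by
        have h1 := hP.bd g v hv 2
        linarith) hx
    have hdr := LPZ_rho _ _ _ _ E E' s hs0 hsr hsr' r3 s3
    have hdk := LPZ_kap _ _ _ _ _ _ s k0 hs0 hsr' hk r6 s6
    have h1 : |rho U E' (g * x) - rho U E g| ≤ c1 * (nm x + |E' - E|) := by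
      refine le_trans hdr ?_
      rw [hc1, div_mul_eq_mul_div]
      refine div_le_div_of_nonneg_right ?_ (by linarith)
      have h2 : 0 ≤ c * K * |E' - E| := by positivity
      nlinarith
    have h2 : |kap U E' (g * x) - kap U E g| ≤ c2 * (nm x + |E' - E|) := by
      refine le_trans hdk ?_
      rw [hc2, div_mul_eq_mul_div]
      refine div_le_div_of_nonneg_right ?_ hs0.le
      have h3 : k0 * |rho U E' (g * x) - rho U E g| ≤ k0 * (c1 * (nm x + |E' - E|)) := mul_le_mul_of_nonneg_left h1 hk00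
      have h4 : 0 ≤ c * K ^ 2 * |E' - E| := by positivity
      nlinarith
    constructor
    · refine le_trans h1 (mul_le_mul_of_nonneg_right ?_ hT)
      linarith
    · refine le_trans h2 (mul_le_mul_of_nonneg_right ?_ hT)
      linarith
  · constructor
    · have h9 : |rho U E' (g * x) - rho U E g| ≤ 2 * S := by
        rw [abs_le]
        constructor <;> linarith
      have h10 : 2 * S ≤ 20 * S * (nm x + |E' - E|) := by nlinarith
      refine le_trans h9 (le_trans h10 (mul_le_mul_of_nonneg_right ?_ hT))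
      linarith
    · have h9 : |kap U E' (g * x) - kap U E g| ≤ 2 * k0 := by
        rw [abs_le] at hk hk' ⊢
        constructor <;> linarith [hk.1, hk.2, hk'.1, hk'.2]
      have h10 : 2 * k0 ≤ 20 * k0 * (nm x + |E' - E|) := by nlinarith
      refine le_trans h9 (le_trans h10 (mul_le_mul_of_nonneg_right ?_ hT))
      linarith

end

end Pool.Agent.VQ
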