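import Pool.Agent.helper11.VQ.Spec3c

/-!
# MP_07c750 (QUE), project VQ, blocks 3c and 3d, row NCV (the Laplace operator and the seminorm of order 2)
-/

set_option autoImplicit false

open scoped MatrixGroups ContDiff Topology UpperHalfPlane ComplexConjugate ENNReal
open UpperHalfPlane MeasureTheory Filter Set

namespace Pool.Agent.VQ

open Pool.Agent.RS
open Pool.Agent.RPQ (CkB)

noncomputable section

theorem NCV_aff (x y : ℝ) (w : ℂ) :
    HasFDerivAt (fun w : ℂ => (y : ℂ) * w + (x : ℂ)) (y • ContinuousLinearMap.id ℝ ℂ) w := by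
  have h1 : HasFDerivAt (fun w : ℂ => y • w) (y • ContinuousLinearMap.id ℝ ℂ) w :=
    (hasFDerivAt_id w).const_smul y
  have h2 := h1.add_const (x : ℂ)
  have h3 : (fun w : ℂ => (y : ℂ) * w + (x : ℂ)) = fun w : ℂ => y • w + (x : ℂ) := by
    funext w
    rw [Complex.real_smul]
  rw [h3]
  exact h2

theorem NCV_two (H : ℂ → ℝ) (x y : ℝ) (p : ℂ) (hH : ContDiffAt ℝ 2 H ((y : ℂ) * p + (x : ℂ))) (u v : ℂ) :
    fderiv ℝ (fderiv ℝ (fun w : ℂ => H ((y : ℂ) * w + (x : ℂ)))) p u v =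
      y ^ 2 * fderiv ℝ (fderiv ℝ H) ((y : ℂ) * p + (x : ℂ)) u v := by
  have hev : ∀ᶠ q in 𝓝 ((y : ℂ) * p + (x : ℂ)), ContDiffAt ℝ 2 H q := hH.eventually (by simp)
  have hA := NCV_aff x y
  have hev2 : ∀ᶠ w in 𝓝 p, ContDiffAt ℝ 2 H ((y : ℂ) * w + (x : ℂ)) :=
    (hA p).continuousAt.eventually hev
  have h1 : (fderiv ℝ (fun w : ℂ => H ((y : ℂ) * w + (x : ℂ)))) =ᶠ[𝓝 p]
      fun w => y • fderiv ℝ H ((y : ℂ) * w + (x : ℂ)) := by
    filter_upwards [hev2] with w hw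
    have h2 : HasFDerivAt H (fderiv ℝ H ((y : ℂ) * w + (x : ℂ))) ((y : ℂ) * w + (x : ℂ)) :=
      (hw.differentiableAt (by norm_num)).hasFDerivAt
    have h3 := HasFDerivAt.comp w h2 (hA w)
    have h4 : (fun w : ℂ => H ((y : ℂ) * w + (x : ℂ))) = H ∘ fun w : ℂ => (y : ℂ) * w + (x : ℂ) := rfl
    rw [h4, h3.fderiv]
    ext t
    simp
  rw [h1.fderiv_eq]
  have hd1 : ContDiffAt ℝ 1 (fderiv ℝ H) ((y : ℂ) * p + (x : ℂ)) := hH.fderiv_right (m := 1) (by norm_num)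
  have h5 : HasFDerivAt (fderiv ℝ H) (fderiv ℝ (fderiv ℝ H) ((y : ℂ) * p + (x : ℂ))) ((y : ℂ) * p + (x : ℂ)) :=
    (hd1.differentiableAt (by norm_num)).hasFDerivAt
  have h6 := (HasFDerivAt.comp p h5 (hA p)).const_smul y
  have h7 : (fun w : ℂ => y • fderiv ℝ H ((y : ℂ) * w + (x : ℂ))) =
      y • (fderiv ℝ H ∘ fun w : ℂ => (y : ℂ) * w + (x : ℂ)) := rfl
  rw [h7, h6.fderiv]
  simp
  ring

theorem NCV_map (z : ℍ) (w : ℂ) (hw : 0 < w.im) (G : ℍ → ℝ) :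
    QU.onC (fun q => G (z.toSL2R • q)) w = QU.onC G ((z.im : ℂ) * w + (z.re : ℂ)) := by
  unfold QU.onC
  have h1 : ofComplex w = ⟨w, hw⟩ := ofComplex_apply_of_im_pos hw
  have hs : 0 < Real.sqrt z.im := Real.sqrt_pos.mpr z.im_pos
  have h2 : ((z.toSL2R • (⟨w, hw⟩ : ℍ) : ℍ) : ℂ) = (z.im : ℂ) * w + (z.re : ℂ) := by
    rw [coe_specialLinearGroup_apply]
    have e00 : z.toSL2R 0 0 = Real.sqrt z.im := by
      simp
    have e01 : z.toSL2R 0 1 = z.re / Real.sqrt z.im := by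
      simp
    have e10 : z.toSL2R 1 0 = 0 := by
      simp
    have e11 : z.toSL2R 1 1 = 1 / Real.sqrt z.im := by
      simp
    have hsc : ((Real.sqrt z.im : ℝ) : ℂ) ≠ 0 := by exact_mod_cast hs.ne'
    have hsq : ((Real.sqrt z.im : ℝ) : ℂ) * ((Real.sqrt z.im : ℝ) : ℂ) = (z.im : ℂ) := by
      rw [← Complex.ofReal_mul, Real.mul_self_sqrt z.im_pos.le]
    simp only [e00, e01, e10, e11]
    show ((((Real.sqrt z.im : ℝ) : ℂ) * w + ((z.re / Real.sqrt z.im : ℝ) : ℂ)) / (((0 : ℝ) : ℂ) * w + ((1 / Real.sqrt z.im : ℝ) : ℂ))) = _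
    push_cast
    rw [zero_mul, zero_add]
    rw [← hsq]
    field_simp
  have h3 : ofComplex ((z.im : ℂ) * w + (z.re : ℂ)) = z.toSL2R • (⟨w, hw⟩ : ℍ) := by
    rw [← h2, ofComplex_apply]
  rw [h1, h3]

theorem NCV_proof : NCV_stmt := by
  intro G η hG hB z
  have hop : IsOpen {w : ℂ | 0 < w.im} := isOpen_lt continuous_const Complex.continuous_im
  have hI : (z.im : ℂ) * Complex.I + (z.re : ℂ) = (z : ℂ) := by
    apply Complex.ext <;> simp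
  have hcd : ContDiffAt ℝ 2 (QU.onC G) (z : ℂ) := by
    unfold QU.CD at hG
    have h := contDiffOn_infty.mp hG 2
    have h' : ContDiffOn ℝ 2 (QU.onC G) {w : ℂ | 0 < w.im} := by exact_mod_cast h
    exact h'.contDiffAt (hop.mem_nhds z.im_pos)
  have hcd' : ContDiffAt ℝ 2 (QU.onC G) ((z.im : ℂ) * Complex.I + (z.re : ℂ)) := by
    rw [hI]
    exact hcd
  have hev : QU.onC (fun q => G (z.toSL2R • q)) =ᶠ[𝓝 Complex.I]
      fun w : ℂ => QU.onC G ((z.im : ℂ) * w + (z.re : ℂ)) := by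
    have hm : {w : ℂ | 0 < w.im} ∈ 𝓝 Complex.I := hop.mem_nhds (by simp)
    filter_upwards [hm] with w hw
    exact NCV_map z w hw G
  have hb := hB z.toSL2R
  have hbI : ((I : ℍ) : ℂ) = Complex.I := rfl
  rw [hbI, (hev.iteratedFDeriv ℝ 2).eq_of_nhds] at hb
  have hv : ∀ u : ℂ, ‖u‖ = 1 → |z.im ^ 2 * fderiv ℝ (fderiv ℝ (QU.onC G)) (z : ℂ) u u| ≤ η := by
    intro u hu
    have h1 := NCV_two (QU.onC G) z.re z.im Complex.I hcd' u u
    rw [hI] at h1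
    rw [← h1]
    have h2 := iteratedFDeriv_two_apply (𝕜 := ℝ) (fun w : ℂ => QU.onC G ((z.im : ℂ) * w + (z.re : ℂ))) Complex.I (fun _ => u)
    have h3 := (iteratedFDeriv ℝ 2 (fun w : ℂ => QU.onC G ((z.im : ℂ) * w + (z.re : ℂ))) Complex.I).le_opNorm (fun _ => u)
    rw [h2] at h3
    have h4 : ∏ _i : Fin 2, ‖u‖ = 1 := by
      rw [hu]
      simp
    rw [h4, mul_one] at h3
    rw [← Real.norm_eq_abs]
    exact le_trans h3 hb
  have h1 := hv 1 (by simp)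
  have h2 := hv Complex.I (by simp)
  have h3 : QU.lap G z = -(z.im ^ 2 * fderiv ℝ (fderiv ℝ (QU.onC G)) (z : ℂ) 1 1 +
      z.im ^ 2 * fderiv ℝ (fderiv ℝ (QU.onC G)) (z : ℂ) Complex.I Complex.I) := by
    unfold QU.lap
    rw [smul_eq_mul]
    ring
  rw [h3, abs_neg]
  have h4 := abs_add_le (z.im ^ 2 * fderiv ℝ (fderiv ℝ (QU.onC G)) (z : ℂ) 1 1)
    (z.im ^ 2 * fderiv ℝ (fderiv ℝ (QU.onC G)) (z : ℂ) Complex.I Complex.I)
  linarith

end

end Pool.Agent.VQ
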